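import Pool.Agent.Y73.XB.Main

/-!
# The field `k(t_(i,n))` with the shift, and functionals with prescribed values
-/

set_option autoImplicit false

namespace Pool.Agent.Y73.XB

open MvPolynomial

universe u v

variable (k : Type u) [Field k] (ι : Type v)

/-- the field of rational functions in `t_(i,n)`, `n ∈ ℤ` -/
abbrev LL : Type _ := FractionRing (MvPolynomial (ι × ℤ) k)

/-- the shift of the indices -/
def shi : ι × ℤ ≃ ι × ℤ := Equiv.prodCongr (Equiv.refl ι) (Equiv.addRight (1 : ℤ))

/-- the shift of the variables -/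
noncomputable def shp : MvPolynomial (ι × ℤ) k ≃ₐ[k] MvPolynomial (ι × ℤ) k :=
  MvPolynomial.renameEquiv k (shi ι)

/-- the shift automorphism of the field -/
noncomputable def sg : LL k ι ≃ₐ[k] LL k ι :=
  AlgEquiv.ofRingEquiv (f := IsFractionRing.ringEquivOfRingEquiv (A := MvPolynomial (ι × ℤ) k)
    (K := LL k ι) (B := MvPolynomial (ι × ℤ) k) (L := LL k ι) (shp k ι).toRingEquiv) (by
    intro r
    rw [IsScalarTower.algebraMap_apply k (MvPolynomial (ι × ℤ) k) (LL k ι),
      IsFractionRing.ringEquivOfRingEquiv_algebraMap]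
    congr 1
    exact (shp k ι).commutes r)

theorem sg_algebraMap (p : MvPolynomial (ι × ℤ) k) :
    sg k ι (algebraMap _ (LL k ι) p) = algebraMap _ (LL k ι) (shp k ι p) := by
  show IsFractionRing.ringEquivOfRingEquiv (A := MvPolynomial (ι × ℤ) k)
    (K := LL k ι) (B := MvPolynomial (ι × ℤ) k) (L := LL k ι) (shp k ι).toRingEquiv
      (algebraMap _ (LL k ι) p) = _
  rw [IsFractionRing.ringEquivOfRingEquiv_algebraMap]
  rfl

/-- the elements `t_(i,n)` -/
noncomputable def tt (n : ℤ) (i : ι) : LL k ι :=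
  algebraMap (MvPolynomial (ι × ℤ) k) (LL k ι) (X (i, n))

variable {ι}

/-- exponents of words -/
noncomputable def ex : List ι → (ι × ℤ →₀ ℕ)
  | [] => 0
  | z :: w => Finsupp.single (z, 0) 1 + Finsupp.mapDomain (shi ι) (ex w)

theorem lc_eq (w : List ι) :
    lc (sg k ι) (tt k ι 0) w =
      algebraMap (MvPolynomial (ι × ℤ) k) (LL k ι) (monomial (ex w) 1) := by
  induction w with
  | nil => simp [lc, ex]
  | cons z w ih =>
    have h1 : shp k ι (monomial (ex w) 1) =
        monomial (Finsupp.mapDomain (shi ι) (ex w)) (1 : k) := by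
      show rename _ _ = _
      rw [rename_monomial]
    rw [lc, ih, sg_algebraMap, h1, ex, tt, ← map_mul, X, monomial_mul, one_mul]

theorem map_ex (w : List ι) (i : ι) (n : ℤ) :
    Finsupp.mapDomain (shi ι) (ex w) (i, n) = ex w (i, n - 1) := by
  have h2 := Finsupp.mapDomain_apply (f := shi ι) (shi ι).injective (ex w) (i, n - 1)
  have h3 : shi ι (i, n - 1) = (i, n) := by simp [shi]
  rwa [h3] at h2

theorem ex_neg (w : List ι) (i : ι) (n : ℤ) (hn : n < 0) : ex w (i, n) = 0 := by
  classical
  induction w generalizing n with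
  | nil => rfl
  | cons z w ih =>
    rw [ex, Finsupp.add_apply, map_ex, ih (n - 1) (by omega), add_zero, Finsupp.single_apply,
      if_neg]
    intro h
    have := congrArg Prod.snd h
    simp only at this
    omega

open Classical in
theorem ex_cons_zero (z i : ι) (w : List ι) : ex (z :: w) (i, 0) = if z = i then 1 else 0 := by
  rw [ex, Finsupp.add_apply, map_ex, ex_neg w i _ (by omega), add_zero, Finsupp.single_apply]
  by_cases h : z = i
  · rw [if_pos h, if_pos (by rw [h])]
  · rw [if_neg h, if_neg]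
    intro h2
    exact h (congrArg Prod.fst h2)

theorem ex_inj (w w' : List ι) (hl : w.length = w'.length) (h : ex w = ex w') : w = w' := by
  classical
  induction w generalizing w' with
  | nil =>
    cases w' with
    | nil => rfl
    | cons z w' => simp at hl
  | cons z w ih =>
    cases w' with
    | nil => simp at hl
    | cons z' w' =>
      have h0 : ex (z :: w) (z, 0) = ex (z' :: w') (z, 0) := by rw [h]
      rw [ex_cons_zero, ex_cons_zero, if_pos rfl] at h0
      have hz : z' = z := by
        by_contra hne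
        rw [if_neg hne] at h0
        exact one_ne_zero h0
      subst hz
      rw [ex, ex] at h
      have h3 := add_left_cancel h
      have h4 := Finsupp.mapDomain_injective (shi ι).injective h3
      rw [ih w' (by simpa using hl) h4]

theorem indep : Indep (k := k) (sg k ι) (tt k ι 0) := by
  classical
  intro n c hc h
  have h1 : (c.sum fun w r => r • lc (sg k ι) (tt k ι 0) w) =
      algebraMap (MvPolynomial (ι × ℤ) k) (LL k ι) (∑ w ∈ c.support, monomial (ex w) (c w)) := by
    rw [map_sum, Finsupp.sum]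
    refine Finset.sum_congr rfl fun w _ => ?_
    rw [lc_eq, Algebra.smul_def, IsScalarTower.algebraMap_apply k (MvPolynomial (ι × ℤ) k) (LL k ι),
      ← map_mul]
    congr 1
    rw [MvPolynomial.algebraMap_eq, C_mul_monomial, mul_one]
  rw [h1] at h
  have h2 : (∑ w ∈ c.support, monomial (ex w) (c w)) = (0 : MvPolynomial (ι × ℤ) k) := by
    apply IsFractionRing.injective (MvPolynomial (ι × ℤ) k) (LL k ι)
    rw [h, map_zero]
  by_contra h0
  obtain ⟨w0, hw0⟩ := Finsupp.support_nonempty_iff.mpr h0
  have h3 := congrArg (coeff (ex w0)) h2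
  rw [coeff_sum, coeff_zero, Finset.sum_eq_single w0] at h3
  · rw [coeff_monomial, if_pos rfl] at h3
    exact (Finsupp.mem_support_iff.mp hw0) h3
  · intro w hw hne
    rw [coeff_monomial, if_neg]
    intro h4
    exact hne (ex_inj w w0 (by rw [hc w hw, hc w0 hw0]) h4)
  · intro h4
    exact absurd hw0 h4

/-! ### linear forms -/

/-- the linear form in the variables of level `n` -/
noncomputable def lf (n : ℤ) : (ι →₀ k) →ₗ[k] MvPolynomial (ι × ℤ) k :=
  Finsupp.linearCombination k fun i => X (i, n)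

theorem coeff_lf (n : ℤ) (α : ι →₀ k) (i : ι) :
    coeff (Finsupp.single (i, n) 1) (lf k n α) = α i := by
  classical
  rw [lf, Finsupp.linearCombination_apply, Finsupp.sum, coeff_sum]
  rw [Finset.sum_congr rfl fun j _ => by
    rw [coeff_smul, coeff_X, smul_eq_mul]]
  by_cases hi : i ∈ α.support
  · rw [Finset.sum_eq_single i]
    · rw [if_pos rfl, mul_one]
    · intro j _ hj
      rw [if_neg, mul_zero]
      intro h
      have h1 := Finsupp.single_left_injective (one_ne_zero : (1 : ℕ) ≠ 0) h
      exact hj (congrArg Prod.fst h1)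
    · intro h
      exact absurd hi h
  · rw [Finsupp.notMem_support_iff.1 hi]
    refine Finset.sum_eq_zero fun j hj => ?_
    rw [if_neg, mul_zero]
    intro h
    have h1 := Finsupp.single_left_injective (one_ne_zero : (1 : ℕ) ≠ 0) h
    have h2 : j = i := congrArg Prod.fst h1
    rw [h2] at hj
    exact hi hj

theorem lf_ne_zero (n : ℤ) {α : ι →₀ k} (hα : α ≠ 0) : lf k n α ≠ 0 := by
  intro h
  apply hα
  ext i
  rw [← coeff_lf k n α i, h, coeff_zero, Finsupp.zero_apply]

theorem sum_tt (n : ℤ) (α : ι →₀ k) : (α.sum fun i c => c • tt k ι n i) =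
    algebraMap (MvPolynomial (ι × ℤ) k) (LL k ι) (lf k n α) := by
  rw [lf, Finsupp.linearCombination_apply, Finsupp.sum, Finsupp.sum, map_sum]
  refine Finset.sum_congr rfl fun i _ => ?_
  rw [tt, Algebra.smul_def, Algebra.smul_def, map_mul,
    IsScalarTower.algebraMap_apply k (MvPolynomial (ι × ℤ) k) (LL k ι)]

theorem sum_tt_ne (n : ℤ) {α : ι →₀ k} (hα : α ≠ 0) : (α.sum fun i c => c • tt k ι n i) ≠ 0 := by
  rw [sum_tt]
  intro h
  exact lf_ne_zero k n hα (IsFractionRing.injective (MvPolynomial (ι × ℤ) k) (LL k ι)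
    (by rw [h, map_zero]))

open Classical in
/-- the substitution killing `lf 0 α` -/
noncomputable def sub (α : ι →₀ k) (i0 : ι) : MvPolynomial (ι × ℤ) k →ₐ[k] MvPolynomial (ι × ℤ) k :=
  aeval fun p => if p = (i0, 0) then X (i0, 0) - (α i0)⁻¹ • lf k 0 α else X p

theorem sub_lf0 (α : ι →₀ k) (i0 : ι) (β : ι →₀ k) :
    sub k α i0 (lf k 0 β) = lf k 0 (β - (β i0 * (α i0)⁻¹) • α) := by
  classical
  have h1 : ∀ i, sub k α i0 (X (i, 0)) = X (i, 0) - if i = i0 then (α i0)⁻¹ • lf k 0 α else 0 := by
    intro i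
    rw [sub, aeval_X]
    by_cases h : i = i0
    · subst h
      rw [if_pos rfl, if_pos rfl]
    · rw [if_neg, if_neg h, sub_zero]
      intro h2
      exact h (congrArg Prod.fst h2)
  rw [map_sub, map_smul]
  conv_lhs => rw [lf, Finsupp.linearCombination_apply, Finsupp.sum, map_sum]
  rw [Finset.sum_congr rfl fun i _ => by rw [map_smul, h1, smul_sub]]
  rw [Finset.sum_sub_distrib]
  congr 1
  by_cases hi : i0 ∈ β.support
  · rw [Finset.sum_eq_single i0]
    · rw [if_pos rfl, smul_smul]
    · intro j _ hj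
      rw [if_neg hj, smul_zero]
    · intro h
      exact absurd hi h
  · rw [Finsupp.notMem_support_iff.1 hi, zero_mul, zero_smul]
    refine Finset.sum_eq_zero fun j hj => ?_
    rw [if_neg, smul_zero]
    rintro rfl
    exact hi hj

theorem sub_lf1 (α : ι →₀ k) (i0 : ι) (β : ι →₀ k) : sub k α i0 (lf k 1 β) = lf k 1 β := by
  classical
  rw [lf, Finsupp.linearCombination_apply, Finsupp.sum, map_sum]
  refine Finset.sum_congr rfl fun i _ => ?_
  rw [map_smul, sub, aeval_X, if_neg]
  intro h
  have := congrArg Prod.snd h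
  simp at this

/-- the ratio attached to a point of projective space -/
noncomputable def rat (α : ι →₀ k) : LL k ι :=
  (α.sum fun i c => c • tt k ι 1 i) / (α.sum fun i c => c • tt k ι 0 i)

theorem li_rat : LinearIndependent k
    fun P : Projectivization k (ι →₀ k) => rat k P.rep := by
  classical
  rw [linearIndependent_iff']
  intro S c hS P0 hP0
  set e := algebraMap (MvPolynomial (ι × ℤ) k) (LL k ι) with he
  have hne : ∀ P : Projectivization k (ι →₀ k), e (lf k 0 P.rep) ≠ 0 := fun P => by
    rw [← sum_tt]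
    exact sum_tt_ne k 0 P.rep_nonzero
  have h1 : ∑ P ∈ S, c P • (lf k 1 P.rep * ∏ Q ∈ S.erase P, lf k 0 Q.rep) = 0 := by
    apply IsFractionRing.injective (MvPolynomial (ι × ℤ) k) (LL k ι)
    rw [map_zero, map_sum]
    have h2 : ∀ P ∈ S, e (c P • (lf k 1 P.rep * ∏ Q ∈ S.erase P, lf k 0 Q.rep)) =
        (c P • rat k P.rep) * ∏ Q ∈ S, e (lf k 0 Q.rep) := by
      intro P hP
      rw [← Finset.mul_prod_erase S _ hP, rat, sum_tt, sum_tt, Algebra.smul_def, Algebra.smul_def,
        map_mul, map_mul, map_prod, IsScalarTower.algebraMap_apply k (MvPolynomial (ι × ℤ) k)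
          (LL k ι)]
      have := hne P
      rw [← he]
      field_simp
    rw [Finset.sum_congr rfl h2, ← Finset.sum_mul, hS, zero_mul]
  obtain ⟨i0, hi0⟩ : ∃ i0, P0.rep i0 ≠ 0 := by
    by_contra hcon
    push Not at hcon
    exact P0.rep_nonzero (Finsupp.ext hcon)
  have h3 := congrArg (sub k P0.rep i0) h1
  rw [map_sum, map_zero] at h3
  have hz : sub k P0.rep i0 (lf k 0 P0.rep) = 0 := by
    rw [sub_lf0, mul_inv_cancel₀ hi0, one_smul, sub_self, map_zero]
  rw [Finset.sum_eq_single P0] at h3
  · rw [map_smul, map_mul, sub_lf1, map_prod] at h3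
    rcases smul_eq_zero.1 h3 with h4 | h4
    · exact h4
    · exfalso
      rcases mul_eq_zero.1 h4 with h5 | h5
      · exact lf_ne_zero k 1 P0.rep_nonzero h5
      · obtain ⟨Q, hQ, h6⟩ := Finset.prod_eq_zero_iff.1 h5
        rw [sub_lf0] at h6
        have h7 : Q.rep - (Q.rep i0 * (P0.rep i0)⁻¹) • P0.rep = 0 := by
          by_contra hne2
          exact lf_ne_zero k 0 hne2 h6
        have h8 : Q.rep = (Q.rep i0 * (P0.rep i0)⁻¹) • P0.rep := sub_eq_zero.1 h7
        have h9 : Q.rep i0 * (P0.rep i0)⁻¹ ≠ 0 := by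
          intro h10
          rw [h10, zero_smul] at h8
          exact Q.rep_nonzero h8
        apply (Finset.mem_erase.1 hQ).1
        rw [← Q.mk_rep, ← P0.mk_rep, Projectivization.mk_eq_mk_iff]
        exact ⟨Units.mk0 _ h9, h8.symm⟩
  · intro P hP hne2
    rw [map_smul, map_mul, map_prod]
    rw [Finset.prod_eq_zero (Finset.mem_erase.2 ⟨hne2.symm, hP0⟩) hz, mul_zero, smul_zero]
  · intro h
    exact absurd hP0 h

/-- functionals with prescribed values on a linearly independent family -/
theorem exists_functional {V : Type*} [AddCommGroup V] [Module k V] {J : Type*} {b : J → V}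
    (hb : LinearIndependent k b) (θ : J → k) : ∃ φ : V →ₗ[k] k, ∀ j, φ (b j) = θ j := by
  obtain ⟨φ, hφ⟩ := LinearMap.exists_extend ((Finsupp.linearCombination k θ) ∘ₗ
    (hb.repr : Submodule.span k (Set.range b) →ₗ[k] J →₀ k))
  refine ⟨φ, fun j => ?_⟩
  have h1 : φ (b j) = (φ ∘ₗ (Submodule.span k (Set.range b)).subtype)
      ⟨b j, Submodule.subset_span ⟨j, rfl⟩⟩ := rfl
  rw [h1, hφ]
  show Finsupp.linearCombination k θ (hb.repr ⟨b j, Submodule.subset_span ⟨j, rfl⟩⟩) = θ j
  rw [hb.repr_eq_single j _ rfl, Finsupp.linearCombination_single, one_smul]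

theorem lin_smul (c : k) (α : ι →₀ k) : lin (c • α) = c • lin α := by
  have h1 : ∀ β : ι →₀ k, lin β = Finsupp.linearCombination k (FreeAlgebra.ι k) β := fun β =>
    (Finsupp.linearCombination_apply k β).symm
  rw [h1, h1, map_smul]

/-- **Every homogeneous function on the space of linear forms extends.** -/
theorem exists_ext (h : (ι →₀ k) → k) (hh : ∀ (c : k) (α : ι →₀ k), h (c • α) = c * h α) :
    ∃ f : FreeAlgebra k ι → k, (∀ a, f (1 + a) = 1 + f a) ∧ (∀ a b, f (a * b) = f a * f b) ∧
      (∀ c, f (algebraMap k _ c) = c) ∧ ∀ α : ι →₀ k, f (lin α) = h α := by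
  classical
  have hsupp : ∀ P : Projectivization k (ι →₀ k), ∃ i, P.rep i ≠ 0 := by
    intro P
    by_contra hcon
    push Not at hcon
    exact P.rep_nonzero (Finsupp.ext hcon)
  choose j hj using hsupp
  have hli : LinearIndependent k fun P : Projectivization k (ι →₀ k) =>
      (sg k ι).symm (rat k P.rep) :=
    (li_rat k (ι := ι)).map' (sg k ι).symm.toLinearMap
      (LinearMap.ker_eq_bot.2 (sg k ι).symm.injective)
  choose τ hτ using fun i => exists_functional k hli
    (fun P => if i = j P then h P.rep / P.rep i else 0)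
  obtain ⟨f, hf1, hf2, hf3, hf4⟩ := exists_fun (sg k ι) (tt k ι 0) (tt k ι 1) τ (indep k)
    (fun α hα => sum_tt_ne k 0 hα)
  refine ⟨f, hf1, hf2, hf3, fun α => ?_⟩
  by_cases hα : α = 0
  · have h0 : h 0 = 0 := by
      have := hh 0 0
      rwa [zero_smul, zero_mul] at this
    have h1 : (lin (0 : ι →₀ k)) = algebraMap k (FreeAlgebra k ι) 0 := by
      rw [map_zero]
      exact Finsupp.sum_zero_index
    rw [hα, h0, h1, hf3]
  · set P := Projectivization.mk k α hα with hP
    obtain ⟨a, ha⟩ := Projectivization.exists_smul_eq_mk_rep k α hα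
    have hrep : f (lin P.rep) = h P.rep := by
      rw [hf4 _ P.rep_nonzero]
      have h2 : ∀ i, τ i ((sg k ι).symm ((P.rep.sum fun i c => c • tt k ι 1 i) /
          (P.rep.sum fun i c => c • tt k ι 0 i))) = if i = j P then h P.rep / P.rep i else 0 :=
        fun i => hτ i P
      rw [Finsupp.sum, Finset.sum_congr rfl fun i _ => by rw [h2]]
      rw [Finset.sum_eq_single (j P)]
      · rw [if_pos rfl]
        have := hj P
        field_simp
      · intro i _ hi
        rw [if_neg hi, mul_zero]
      · intro hi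
        exact absurd (Finsupp.mem_support_iff.2 (hj P)) hi
    have hα2 : α = ((a⁻¹ : kˣ) : k) • P.rep := by
      rw [← ha]
      show α = ((a⁻¹ : kˣ) : k) • ((a : k) • α)
      rw [smul_smul, Units.inv_mul, one_smul]
    have hlin : lin α = algebraMap k (FreeAlgebra k ι) ((a⁻¹ : kˣ) : k) * lin P.rep := by
      conv_lhs => rw [hα2]
      rw [lin_smul, Algebra.smul_def]
    rw [hlin, hf2, hf3, hrep, ← hh, ← hα2]

end Pool.Agent.Y73.XB
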