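import Pool.Agent.Y73.XB.Ops
import Pool.Agent.H539R3.BR.Main

/-!
# The multiplicative function on the free algebra attached to a family of functionals
-/

set_option autoImplicit false

namespace Pool.Agent.Y73.XB

open H539R3.BR (Fil sh solve solve_unique Good dd dd_apply good_solve pair_sub)

variable {k L ι : Type*} [Field k] [Field L] [Algebra k L]
variable (σ : L ≃ₐ[k] L) (t s : ι → L) (τ : ι → L →ₗ[k] k)

/-- leading coefficients are independent -/
def Indep : Prop := ∀ (n : ℕ) (c : List ι →₀ k), (∀ w ∈ c.support, w.length = n) →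
  (c.sum fun w r => r • lc σ t w) = 0 → c = 0

theorem good_sum (hI : Indep (k := k) σ t) (c : List ι →₀ k) (hc : c ≠ 0) :
    Good σ (c.sum fun w r => r • ow σ t s τ w) := by
  classical
  set T : Module.End k (k × (ℤ → L)) := c.sum fun w r => r • ow σ t s τ w with hT
  set n : ℕ := c.support.sup List.length with hn
  have hle : ∀ w ∈ c.support, w.length ≤ n := fun w hw => Finset.le_sup (f := List.length) hw
  have hval : ∀ p, T p = ∑ w ∈ c.support, c w • ow σ t s τ w p := by
    intro p
    rw [hT, Finsupp.sum, LinearMap.sum_apply]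
    rfl
  have hsnd : ∀ p, (T p).2 = ∑ w ∈ c.support, c w • (ow σ t s τ w p).2 := by
    intro p
    rw [hval, Prod.snd_sum]
    rfl
  have hfst : ∀ p, (T p).1 = ∑ w ∈ c.support, c w • (ow σ t s τ w p).1 := by
    intro p
    rw [hval, Prod.fst_sum]
    rfl
  let c' : List ι →₀ k := c.filter fun w => w.length = n
  have hc' : c' ≠ 0 := by
    obtain ⟨w0, hw0, he⟩ := Finset.exists_mem_eq_sup c.support
      (Finsupp.support_nonempty_iff.mpr hc) List.length
    intro h
    have h1 : c' w0 = c w0 := Finsupp.filter_apply_pos _ _ (by rw [hn, he])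
    rw [h] at h1
    exact (Finsupp.mem_support_iff.mp hw0) h1.symm
  have hsupp : ∀ w ∈ c'.support, w.length = n := by
    intro w hw
    rw [Finsupp.support_filter, Finset.mem_filter] at hw
    exact hw.2
  have hl : (c'.sum fun w r => r • lc σ t w) ≠ 0 := fun h => hc' (hI n c' hsupp h)
  refine ⟨n, _, hl, ?_, ?_, ?_, ?_⟩
  · intro m v hv
    rw [hsnd]
    refine Fil.sum _ _ fun w hw => ?_
    refine Fil.smul ?_ _
    refine (word_one σ t s τ w m v hv).1.mono ?_
    have := hle w hw
    omega
  · intro m v hv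
    rw [hsnd, Finset.sum_apply, Finsupp.sum, Finset.sum_mul, Finsupp.support_filter,
      Finset.sum_filter]
    refine Finset.sum_congr rfl fun w hw => ?_
    split_ifs with h
    · have h2 := (word_one σ t s τ w m v hv).2.1
      rw [h] at h2
      rw [Pi.smul_apply, h2, smul_mul_assoc]
      congr 1
      exact (Finsupp.filter_apply_pos (fun w : List ι => w.length = n) c h).symm
    · have h2 := (word_one σ t s τ w m v hv).1 (m - n) (by
        have := hle w hw
        omega)
      rw [Pi.smul_apply, h2, smul_zero]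
  · intro m v hv hm
    rw [hfst]
    refine Finset.sum_eq_zero fun w hw => ?_
    have h2 := (word_one σ t s τ w m v hv).2.2 (by
      have := hle w hw
      omega)
    rw [h2, smul_zero]
  · rw [hsnd]
    refine Fil.sum _ _ fun w hw => ?_
    refine Fil.smul ?_ _
    refine (word_two σ t s τ w).mono ?_
    have := hle w hw
    omega

/-- the representation of the free algebra -/
noncomputable def Q : FreeAlgebra k ι →ₐ[k] Module.End k (k × (ℤ → L)) :=
  FreeAlgebra.lift k (op σ t s τ)

theorem Q_ι (z : ι) : Q σ t s τ (FreeAlgebra.ι k z) = op σ t s τ z := FreeAlgebra.lift_ι_apply _ _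

theorem span_words (a : FreeAlgebra k ι) :
    a ∈ Submodule.span k (Set.range fun w : List ι => (w.map (FreeAlgebra.ι k)).prod) := by
  induction a using FreeAlgebra.induction with
  | grade0 r =>
    rw [Algebra.algebraMap_eq_smul_one]
    exact Submodule.smul_mem _ _ (Submodule.subset_span ⟨[], rfl⟩)
  | grade1 z => exact Submodule.subset_span ⟨[z], by simp⟩
  | mul a b ha hb =>
    have h := Submodule.mul_mem_mul ha hb
    rw [Submodule.span_mul_span] at h
    refine Submodule.span_mono ?_ h
    rintro _ ⟨_, ⟨w, rfl⟩, _, ⟨w', rfl⟩, rfl⟩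
    exact ⟨w ++ w', by simp⟩
  | add a b ha hb => exact add_mem ha hb

theorem Q_word (w : List ι) : Q σ t s τ (w.map (FreeAlgebra.ι k)).prod = ow σ t s τ w := by
  induction w with
  | nil => exact map_one _
  | cons z w ih => rw [List.map_cons, List.prod_cons, map_mul, ih, Q_ι]; rfl

theorem good_Q (hI : Indep (k := k) σ t) (a : FreeAlgebra k ι) (ha : a ≠ 0) :
    Good σ (Q σ t s τ a) := by
  obtain ⟨c, hc⟩ := Finsupp.mem_span_range_iff_exists_finsupp.mp (span_words a)
  have h0 : c ≠ 0 := by
    rintro rfl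
    exact ha (by rw [← hc, Finsupp.sum_zero_index])
  have h1 : Q σ t s τ a = c.sum fun w r => r • ow σ t s τ w := by
    rw [← hc, map_finsuppSum]
    refine Finsupp.sum_congr fun w _ => ?_
    rw [map_smul, Q_word]
  rw [h1]
  exact good_sum σ t s τ hI c h0

/-- `r` is the value at `a` -/
def R (a : FreeAlgebra k ι) (r : k) : Prop :=
  ∃ v : ℤ → L, Fil 1 v ∧ Q σ t s τ a (1, -v) = (r, 0)

theorem R_zero : R σ t s τ 0 0 := ⟨0, Fil.zero 1, by rw [map_zero]; rfl⟩

theorem R_ex (hI : Indep (k := k) σ t) (a : FreeAlgebra k ι) : ∃ r, R σ t s τ a r := by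
  by_cases ha : a = 0
  · subst ha; exact ⟨0, R_zero σ t s τ⟩
  · obtain ⟨n, l, hl, h1, h2, h3, h4⟩ := good_Q σ t s τ hI a ha
    obtain ⟨v, hv, he⟩ := solve σ (dd (Q σ t s τ a)) n l hl h1 h2 1 _ h4
    refine ⟨(Q σ t s τ a (1, -v)).1, v, hv, Prod.ext rfl ?_⟩
    show (Q σ t s τ a (1, -v)).2 = 0
    rw [pair_sub, map_sub, Prod.snd_sub, ← he, dd_apply, sub_self]

theorem R_unique (hI : Indep (k := k) σ t) (a : FreeAlgebra k ι) (r r' : k)
    (hr : R σ t s τ a r) (hs : R σ t s τ a r') : r = r' := by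
  obtain ⟨v, hv, hv'⟩ := hr
  obtain ⟨w, hw, hw'⟩ := hs
  by_cases ha : a = 0
  · subst ha
    rw [map_zero] at hv' hw'
    have h1 := congrArg Prod.fst hv'
    have h2 := congrArg Prod.fst hw'
    exact (h1.symm.trans rfl).trans h2
  · obtain ⟨n, l, hl, h1, h2, h3, h4⟩ := good_Q σ t s τ hI a ha
    have e : Q σ t s τ a (0, w - v) = (r - r', 0) := by
      have : ((0 : k), w - v) = (1, -v) - (1, -w) := by
        refine Prod.ext ?_ ?_
        · show (0 : k) = 1 - 1
          rw [sub_self]
        · show w - v = -v - -w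
          abel
      rw [this, map_sub, hv', hw']
      refine Prod.ext rfl ?_
      show (0 : ℤ → L) - 0 = 0
      rw [sub_zero]
    have h5 : w - v = 0 := solve_unique σ (dd (Q σ t s τ a)) n l hl h2 1 (w - v) (hw.sub hv)
      (congrArg Prod.snd e)
    rw [h5] at e
    have h6 : Q σ t s τ a ((0 : k), (0 : ℤ → L)) = 0 := map_zero _
    rw [h6] at e
    have h7 := congrArg Prod.fst e
    have h8 : r - r' = 0 := h7.symm
    exact sub_eq_zero.mp h8

theorem R_mul (hI : Indep (k := k) σ t) (a b : FreeAlgebra k ι) (r r' : k)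
    (hr : R σ t s τ a r) (hs : R σ t s τ b r') : R σ t s τ (a * b) (r * r') := by
  by_cases hb : b = 0
  · subst hb
    have : r' = 0 := R_unique σ t s τ hI 0 r' 0 hs (R_zero σ t s τ)
    rw [this, mul_zero, mul_zero]
    exact R_zero σ t s τ
  · obtain ⟨v, hv, hv'⟩ := hr
    obtain ⟨u, hu, hu'⟩ := hs
    obtain ⟨w, hw, hw'⟩ := good_solve σ (good_Q σ t s τ hI b hb) (r' • v) (hv.smul r')
    refine ⟨u + w, hu.add hw, ?_⟩
    have e1 : Q σ t s τ b (1, -(u + w)) = r' • ((1 : k), -v) := by
      have : ((1 : k), -(u + w)) = (1, -u) - (0, w) := by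
        refine Prod.ext ?_ ?_
        · show (1 : k) = 1 - 0
          rw [sub_zero]
        · show -(u + w) = -u - w
          abel
      rw [this, map_sub, hu', hw']
      refine Prod.ext ?_ ?_
      · show r' - 0 = r' * 1
        ring
      · show (0 : ℤ → L) - r' • v = r' • -v
        rw [zero_sub, smul_neg]
    rw [map_mul]
    show Q σ t s τ a (Q σ t s τ b (1, -(u + w))) = _
    rw [e1, map_smul, hv']
    refine Prod.ext ?_ ?_
    · show r' * r = r * r'
      ring
    · show r' • (0 : ℤ → L) = 0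
      rw [smul_zero]

theorem R_const (c : k) : R σ t s τ (algebraMap k _ c) c := ⟨0, Fil.zero 1, by
  rw [AlgHom.commutes, neg_zero]
  refine Prod.ext ?_ ?_
  · show c * 1 = c
    rw [mul_one]
  · show c • (0 : ℤ → L) = 0
    rw [smul_zero]⟩

theorem R_add (hI : Indep (k := k) σ t) (a : FreeAlgebra k ι) (r : k)
    (hr : R σ t s τ a r) : R σ t s τ (1 + a) (1 + r) := by
  by_cases hb : 1 + a = 0
  · have ha : a = algebraMap k _ (-1) := by
      rw [map_neg, map_one, eq_neg_iff_add_eq_zero, add_comm]; exact hb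
    rw [hb]
    rw [ha] at hr
    have : r = -1 := R_unique σ t s τ hI _ _ _ hr (R_const σ t s τ (-1))
    rw [this, add_neg_cancel]
    exact R_zero σ t s τ
  · obtain ⟨v, hv, hv'⟩ := hr
    obtain ⟨w, hw, hw'⟩ := good_solve σ (good_Q σ t s τ hI _ hb) v hv
    refine ⟨v - w, hv.sub hw, ?_⟩
    have : ((1 : k), -(v - w)) = (1, -v) + (0, w) := by
      refine Prod.ext ?_ ?_
      · show (1 : k) = 1 + 0
        rw [add_zero]
      · show -(v - w) = -v + w
        abel
    rw [this, map_add, hw', map_add, map_one]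
    show ((1 : k), -v) + Q σ t s τ a (1, -v) + (0, v) = _
    rw [hv']
    refine Prod.ext ?_ ?_
    · show (1 : k) + r + 0 = 1 + r
      rw [add_zero]
    · show -v + 0 + v = 0
      abel

/-- the linear form with coefficients `α` -/
noncomputable def lin (α : ι →₀ k) : FreeAlgebra k ι := α.sum fun i c => c • FreeAlgebra.ι k i

/-- the value at a linear form -/
theorem R_lin (α : ι →₀ k) (ht : (α.sum fun i c => c • t i) ≠ 0) :
    R σ t s τ (lin α) (α.sum fun i c => c * τ i (σ.symm
      ((α.sum fun i c => c • s i) / (α.sum fun i c => c • t i)))) := by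
  set c0 : L := σ.symm ((α.sum fun i c => c • s i) / (α.sum fun i c => c • t i)) with hc0
  refine ⟨Pi.single 1 c0, fun i hi => by rw [Pi.single_apply, if_neg (ne_of_lt hi)], ?_⟩
  have hQ : Q σ t s τ (lin α) (1, -(Pi.single 1 c0 : ℤ → L)) =
      ∑ i ∈ α.support, α i • op σ t s τ i (1, -(Pi.single 1 c0 : ℤ → L)) := by
    rw [lin, Finsupp.sum, map_sum, LinearMap.sum_apply]
    refine Finset.sum_congr rfl fun i _ => ?_
    rw [map_smul, Q_ι]
    rfl
  rw [hQ]
  refine Prod.ext ?_ ?_
  · rw [Prod.fst_sum, Finsupp.sum]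
    refine Finset.sum_congr rfl fun i _ => ?_
    rw [Prod.smul_fst, op_fst, smul_eq_mul]
    congr 1
    show -(τ i ((-(Pi.single 1 c0 : ℤ → L)) 1)) = _
    rw [Pi.neg_apply, Pi.single_eq_same, map_neg, neg_neg]
  · rw [Prod.snd_sum]
    funext j
    rw [Finset.sum_apply]
    show ∑ i ∈ α.support, (α i • op σ t s τ i (1, -(Pi.single 1 c0 : ℤ → L))).2 j = 0
    have h1 : ∀ i ∈ α.support, (α i • op σ t s τ i (1, -(Pi.single 1 c0 : ℤ → L))).2 j =
        if j = 0 then α i • s i - (α i • t i) * σ c0 else 0 := by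
      intro i _
      rw [Prod.smul_snd, Pi.smul_apply, op_snd, Pi.smul_apply, one_smul]
      have h2 : sh σ (-(Pi.single 1 c0 : ℤ → L)) j = if j = 0 then -σ c0 else 0 := by
        show σ ((-(Pi.single 1 c0 : ℤ → L)) (j + 1)) = _
        rw [Pi.neg_apply, map_neg, Pi.single_apply]
        by_cases h : j = 0
        · subst h
          simp
        · rw [if_neg (by omega), if_neg h, map_zero, neg_zero]
      show α i • ((Pi.single 0 (s i) : ℤ → L) j + t i * sh σ (-(Pi.single 1 c0 : ℤ → L)) j) = _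
      rw [h2, Pi.single_apply]
      by_cases h : j = 0
      · rw [if_pos h, if_pos h, if_pos h, mul_neg, ← sub_eq_add_neg, smul_sub, smul_mul_assoc]
      · rw [if_neg h, if_neg h, if_neg h, mul_zero, add_zero, smul_zero]
    rw [Finset.sum_congr rfl h1]
    by_cases h : j = 0
    · rw [Finset.sum_congr rfl fun i _ => if_pos h, Finset.sum_sub_distrib, ← Finset.sum_mul]
      rw [hc0, AlgEquiv.apply_symm_apply]
      show (α.sum fun i c => c • s i) - (α.sum fun i c => c • t i) *
        ((α.sum fun i c => c • s i) / (α.sum fun i c => c • t i)) = 0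
      rw [mul_div_cancel₀ _ ht, sub_self]
    · rw [Finset.sum_congr rfl fun i _ => if_neg h, Finset.sum_const_zero]

/-- the multiplicative function -/
theorem exists_fun (hI : Indep (k := k) σ t)
    (ht : ∀ α : ι →₀ k, α ≠ 0 → (α.sum fun i c => c • t i) ≠ 0) :
    ∃ f : FreeAlgebra k ι → k, (∀ a, f (1 + a) = 1 + f a) ∧ (∀ a b, f (a * b) = f a * f b) ∧
      (∀ c, f (algebraMap k _ c) = c) ∧ ∀ α : ι →₀ k, α ≠ 0 →
        f (lin α) = α.sum fun i c => c * τ i (σ.symm
          ((α.sum fun i c => c • s i) / (α.sum fun i c => c • t i))) := by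
  choose f hf using R_ex σ t s τ hI
  have key : ∀ a r, R σ t s τ a r → f a = r := fun a r h =>
    R_unique σ t s τ hI a _ _ (hf a) h
  exact ⟨f, fun a => key _ _ (R_add σ t s τ hI a _ (hf a)),
    fun a b => key _ _ (R_mul σ t s τ hI a b _ _ (hf a) (hf b)),
    fun c => key _ _ (R_const σ t s τ c),
    fun α hα => key _ _ (R_lin σ t s τ α (ht α hα))⟩

end Pool.Agent.Y73.XB
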