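import Pool.Agent.H539R3.BR.Ops

/-!
# Operators on `k × (ℤ → L)`, one for each letter of an arbitrary alphabet
-/

set_option autoImplicit false

namespace Pool.Agent.Y73.XB

open H539R3.BR (Fil sh solve solve_unique)

variable {k L ι : Type*} [Field k] [Field L] [Algebra k L]
variable (σ : L ≃ₐ[k] L) (t s : ι → L) (τ : ι → L →ₗ[k] k)

/-- the operators of the letters -/
def op (z : ι) : Module.End k (k × (ℤ → L)) where
  toFun p := (-(τ z (p.2 1)), p.1 • (Pi.single 0 (s z) : ℤ → L) + fun i => t z * sh σ p.2 i)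
  map_add' p q := by
    refine Prod.ext ?_ ?_
    · show -τ z ((p.2 + q.2) 1) = -τ z (p.2 1) + -τ z (q.2 1)
      rw [Pi.add_apply, map_add]; ring
    · show (p.1 + q.1) • (Pi.single 0 (s z) : ℤ → L) + (fun i => t z * sh σ (p.2 + q.2) i) =
        (p.1 • (Pi.single 0 (s z) : ℤ → L) + fun i => t z * sh σ p.2 i) +
        (q.1 • (Pi.single 0 (s z) : ℤ → L) + fun i => t z * sh σ q.2 i)
      rw [map_add, add_smul]
      funext i
      simp only [Pi.add_apply]
      ring
  map_smul' c p := by
    refine Prod.ext ?_ ?_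
    · show -τ z ((c • p.2) 1) = c * -τ z (p.2 1)
      rw [Pi.smul_apply, map_smul, smul_eq_mul]; ring
    · show (c * p.1) • (Pi.single 0 (s z) : ℤ → L) + (fun i => t z * sh σ (c • p.2) i) =
        c • (p.1 • (Pi.single 0 (s z) : ℤ → L) + fun i => t z * sh σ p.2 i)
      rw [map_smul, smul_add, mul_smul]
      congr 1
      funext i
      show t z * (c • sh σ p.2 i) = c • (t z * sh σ p.2 i)
      rw [mul_smul_comm]

theorem op_fst (z : ι) (p : k × (ℤ → L)) : (op σ t s τ z p).1 = -(τ z (p.2 1)) := rfl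

theorem op_snd (z : ι) (p : k × (ℤ → L)) (i : ℤ) :
    (op σ t s τ z p).2 i = (p.1 • (Pi.single 0 (s z) : ℤ → L)) i + t z * sh σ p.2 i := rfl

/-- leading coefficients of words -/
def lc : List ι → L
  | [] => 1
  | z :: w => t z * σ (lc w)

/-- the operators of words -/
def ow : List ι → Module.End k (k × (ℤ → L))
  | [] => 1
  | z :: w => op σ t s τ z * ow w

theorem ow_cons (z : ι) (w : List ι) (p : k × (ℤ → L)) :
    ow σ t s τ (z :: w) p = op σ t s τ z (ow σ t s τ w p) := rfl

theorem word_one (w : List ι) (m : ℤ) (v : ℤ → L) (hv : Fil m v) :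
    Fil (m - w.length) (ow σ t s τ w (0, v)).2 ∧
    (ow σ t s τ w (0, v)).2 (m - w.length) = lc σ t w * (σ : L → L)^[w.length] (v m) ∧
    ((w.length : ℤ) + 1 ≤ m → (ow σ t s τ w (0, v)).1 = 0) := by
  induction w with
  | nil =>
    refine ⟨?_, ?_, fun _ => rfl⟩
    · show Fil (m - (0 : ℕ)) v
      simpa using hv
    · show v (m - (0 : ℕ)) = 1 * v m
      simp
  | cons z w ih =>
    obtain ⟨h1, h2, h3⟩ := ih
    have hsh : Fil (m - (w.length + 1 : ℕ)) (sh σ (ow σ t s τ w (0, v)).2) := by
      intro i hi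
      show σ ((ow σ t s τ w (0, v)).2 (i + 1)) = 0
      push_cast at hi
      rw [h1 (i + 1) (by omega), map_zero]
    have hshc : sh σ (ow σ t s τ w (0, v)).2 (m - (w.length + 1 : ℕ)) =
        σ (lc σ t w) * (σ : L → L)^[w.length + 1] (v m) := by
      show σ ((ow σ t s τ w (0, v)).2 (m - (w.length + 1 : ℕ) + 1)) = _
      have : m - ((w.length + 1 : ℕ) : ℤ) + 1 = m - w.length := by push_cast; ring
      rw [this, h2, map_mul, Function.iterate_succ_apply']
    have hsm : ∀ i : ℤ, i ≤ m - (w.length + 1 : ℕ) →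
        ((ow σ t s τ w (0, v)).1 • (Pi.single 0 (s z) : ℤ → L)) i = 0 := by
      intro i hi
      push_cast at hi
      by_cases hm : (w.length : ℤ) + 1 ≤ m
      · rw [h3 hm, zero_smul]; rfl
      · rw [Pi.smul_apply, Pi.single_eq_of_ne (by omega), smul_zero]
    rw [ow_cons]
    refine ⟨?_, ?_, ?_⟩
    · intro i hi
      rw [List.length_cons] at hi
      rw [op_snd, hsm i hi.le, hsh i hi, mul_zero, add_zero]
    · rw [List.length_cons, op_snd, hsm _ le_rfl, hshc, zero_add, lc, mul_assoc]
    · intro hm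
      rw [List.length_cons] at hm
      push_cast at hm
      rw [op_fst, h1 1 (by omega), map_zero, neg_zero]

theorem word_two (w : List ι) : Fil (1 - w.length) (ow σ t s τ w (1, 0)).2 := by
  induction w with
  | nil => exact fun i _ => rfl
  | cons z w ih =>
    intro i hi
    rw [List.length_cons] at hi
    push_cast at hi
    rw [ow_cons, op_snd, Pi.smul_apply, Pi.single_eq_of_ne (by omega), smul_zero, zero_add]
    show t z * σ ((ow σ t s τ w (1, 0)).2 (i + 1)) = 0
    rw [ih (i + 1) (by omega), map_zero, mul_zero]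

end Pool.Agent.Y73.XB
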